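import Pool.Agent.Lib.MP_b5021c_nt.IfaceK2

/-!
# MP_b5021c_nt, row UNR: `Unitary (toA D)` gives `UniK D` if all ports occur
-/

namespace Pool.Agent.MP_b5021c_nt.Unr

open Polynomial Pool.Agent.B5 Pool.Agent.MP_b5021c_nt

/-- A unit of a group algebra over a domain (two unique sums) is a monomial. -/
theorem mono_of_mul_one {K G : Type} [CommRing K] [IsDomain K] [AddCommGroup G] [TwoUniqueSums G]
    (u v : AddMonoidAlgebra K G) (h : u * v = 1) :
    ∃ (a : G) (c : K), IsUnit c ∧ u = AddMonoidAlgebra.single a c := by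
  classical
  have hu : u ≠ 0 := by
    rintro rfl
    rw [zero_mul] at h
    exact zero_ne_one h
  have hv : v ≠ 0 := by
    rintro rfl
    rw [mul_zero] at h
    exact zero_ne_one h
  have hu0 : u.coeff.support.Nonempty := by
    rw [Finsupp.support_nonempty_iff]
    exact fun h0 => hu (AddMonoidAlgebra.coeff_inj.mp (by rw [h0]; rfl))
  have hv0 : v.coeff.support.Nonempty := by
    rw [Finsupp.support_nonempty_iff]
    exact fun h0 => hv (AddMonoidAlgebra.coeff_inj.mp (by rw [h0]; rfl))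
  have one_coeff : ∀ x : G, x ≠ 0 → (1 : AddMonoidAlgebra K G).coeff x = 0 := by
    intro x hx
    rw [AddMonoidAlgebra.one_def, AddMonoidAlgebra.coeff_single, Finsupp.single_apply, if_neg (Ne.symm hx)]
  have hcard : ¬ 1 < u.coeff.support.card * v.coeff.support.card := by
    intro hc
    obtain ⟨p, hp, q, hq, hne, h1, h2⟩ := TwoUniqueSums.uniqueAdd_of_one_lt_card hc
    have e1 := AddMonoidAlgebra.coeff_mul_add_of_uniqueAdd h1
    have e2 := AddMonoidAlgebra.coeff_mul_add_of_uniqueAdd h2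
    rw [h] at e1 e2
    rw [Finset.mem_product] at hp hq
    have n1 : u.coeff p.1 * v.coeff p.2 ≠ 0 :=
      mul_ne_zero (Finsupp.mem_support_iff.mp hp.1) (Finsupp.mem_support_iff.mp hp.2)
    have n2 : u.coeff q.1 * v.coeff q.2 ≠ 0 :=
      mul_ne_zero (Finsupp.mem_support_iff.mp hq.1) (Finsupp.mem_support_iff.mp hq.2)
    have z1 : p.1 + p.2 = 0 := by
      by_contra hh
      exact n1 (by rw [← e1, one_coeff _ hh])
    have z2 : q.1 + q.2 = 0 := by
      by_contra hh
      exact n2 (by rw [← e2, one_coeff _ hh])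
    have h3 := h1 hq.1 hq.2 (z2.trans z1.symm)
    exact hne (Prod.ext h3.1.symm h3.2.symm)
  have c1 : u.coeff.support.card = 1 := by
    have p1 := Finset.card_pos.mpr hu0
    have p2 := Finset.card_pos.mpr hv0
    by_contra hne
    have h4 : 2 ≤ u.coeff.support.card := by omega
    have h5 : 2 * 1 ≤ u.coeff.support.card * v.coeff.support.card := Nat.mul_le_mul h4 p2
    omega
  have c2 : v.coeff.support.card = 1 := by
    have p1 := Finset.card_pos.mpr hu0
    have p2 := Finset.card_pos.mpr hv0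
    by_contra hne
    have h4 : 2 ≤ v.coeff.support.card := by omega
    have h5 : 1 * 2 ≤ u.coeff.support.card * v.coeff.support.card := Nat.mul_le_mul p1 h4
    omega
  obtain ⟨a, ha⟩ := Finset.card_eq_one.mp c1
  obtain ⟨b, hb⟩ := Finset.card_eq_one.mp c2
  have ea : u = AddMonoidAlgebra.single a (u.coeff a) := by
    apply AddMonoidAlgebra.coeff_inj.mp
    rw [AddMonoidAlgebra.coeff_single]
    exact (Finsupp.support_subset_singleton.mp (ha.le))
  have eb : v = AddMonoidAlgebra.single b (v.coeff b) := by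
    apply AddMonoidAlgebra.coeff_inj.mp
    rw [AddMonoidAlgebra.coeff_single]
    exact (Finsupp.support_subset_singleton.mp (hb.le))
  refine ⟨a, u.coeff a, ?_, ea⟩
  rw [ea, eb, AddMonoidAlgebra.single_mul_single, AddMonoidAlgebra.one_def] at h
  have h6 := congrArg (fun F : AddMonoidAlgebra K G => F.coeff 0) h
  simp only [AddMonoidAlgebra.coeff_single, Finsupp.single_apply] at h6
  split_ifs at h6 with h7
  · exact IsUnit.of_mul_eq_one _ h6
  · exact absurd h6 zero_ne_one

/-- Units of `R = ℤ[z,1/z]`. -/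
theorem unit_R (c : R) (hc : IsUnit c) : ∃ (n : ℤ) (ε : ℤ), (ε = 1 ∨ ε = -1) ∧
    c = AddMonoidAlgebra.single n ε := by
  obtain ⟨v, hv⟩ := isUnit_iff_exists_inv.mp hc
  obtain ⟨n, ε, hε, e⟩ := mono_of_mul_one (K := ℤ) (G := ℤ) c v hv
  exact ⟨n, ε, Int.isUnit_iff.mp hε, e⟩

theorem coeff_toLaurent_nat (p : ℤ[X]) (k : ℕ) : (Polynomial.toLaurent p).coeff (k : ℤ) = p.coeff k := by
  rw [LaurentPolynomial.coeff_toLaurent]
  exact Finsupp.mapDomain_apply Nat.castEmbedding.injective _ _

theorem coeff_toLaurent_neg (p : ℤ[X]) (k : ℤ) (hk : k < 0) : (Polynomial.toLaurent p).coeff k = 0 := by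
  rw [LaurentPolynomial.coeff_toLaurent]
  apply Finsupp.mapDomain_of_notMem_range
  rintro ⟨n, hn⟩
  have : (n : ℤ) = k := hn
  omega

theorem ind_inj {ι : Type} [DecidableEq ι] (S T : Finset ι) (h : ind S = ind T) : S = T := by
  ext i
  have h1 := congrFun h i
  simp only [ind] at h1
  by_cases hS : i ∈ S <;> by_cases hT : i ∈ T <;> simp_all

theorem unr (htco : TcoS) : UnrS := by
  intro ι _ _ D h0 hports hU
  obtain ⟨hc1, hc2⟩ := htco ι D
  obtain ⟨u, hu⟩ := hU
  obtain ⟨a, c, hc, hua⟩ := mono_of_mul_one (u : A (ι → ℤ)) _ u.mul_inv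
  obtain ⟨n, ε, hε, hce⟩ := unit_R c hc
  have hε0 : ε ≠ 0 := by rcases hε with h | h <;> rw [h] <;> norm_num
  have key : ∀ x : ι → ℤ, (toA D).coeff x = LaurentPolynomial.invert ((toA D).coeff (a - x)) * c := by
    intro x
    have h1 := congrArg (fun F : A (ι → ℤ) => F.coeff x) hu
    rw [hua, AddMonoidAlgebra.coeff_mul_single_apply, sharp_coeff] at h1
    rw [← h1]
    congr 3
    abel
  have hne : ∀ x : ι → ℤ, (toA D).coeff x ≠ 0 → (toA D).coeff (a - x) ≠ 0 := by
    intro x hx h1
    apply hx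
    rw [key x, h1, map_zero, zero_mul]
  have hlaur : ∀ p : ℤ[X], p ≠ 0 → Polynomial.toLaurent p ≠ 0 := fun p hp =>
    Polynomial.toLaurent_ne_zero.mpr hp
  have hi0 : ind (∅ : Finset ι) = 0 := by
    funext i
    simp [ind]
  have ha0 : (toA D).coeff a ≠ 0 := by
    have h1 : (toA D).coeff (0 : ι → ℤ) ≠ 0 := by
      rw [← hi0, hc1 ∅]
      exact hlaur _ h0
    have h2 := hne 0 h1
    rwa [sub_zero] at h2
  obtain ⟨T0, hT0, hDT0⟩ := hc2 a ha0
  have hsub : ∀ T, D T ≠ 0 → T ⊆ T0 := by
    intro T hT i hi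
    have h1 : (toA D).coeff (ind T) ≠ 0 := by
      rw [hc1 T]
      exact hlaur _ hT
    obtain ⟨T', hT', _⟩ := hc2 _ (hne _ h1)
    have h2 := congrFun hT' i
    rw [hT0] at h2
    simp only [ind, Pi.sub_apply, if_pos hi] at h2
    by_contra hi0
    rw [if_neg hi0] at h2
    split_ifs at h2 <;> omega
  have hTu : T0 = Finset.univ := by
    apply Finset.eq_univ_of_forall
    intro i
    obtain ⟨S, hS, hDS⟩ := hports i
    exact hsub S hDS hS
  have hcomp : ∀ S : Finset ι, a - ind Sᶜ = ind S := by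
    intro S
    funext i
    rw [hT0, hTu]
    simp only [ind, Pi.sub_apply, Finset.mem_univ, if_true, Finset.mem_compl]
    by_cases hS : i ∈ S
    · simp [hS]
    · simp [hS]
  have hmain : ∀ S : Finset ι, Polynomial.toLaurent (D Sᶜ)
      = LaurentPolynomial.invert (Polynomial.toLaurent (D S)) * c := by
    intro S
    rw [← hc1 Sᶜ, ← hc1 S, key, hcomp S]
  have hcoef : ∀ (S : Finset ι) (k : ℤ), (Polynomial.toLaurent (D Sᶜ)).coeff k
      = (Polynomial.toLaurent (D S)).coeff (n - k) * ε := by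
    intro S k
    rw [hmain S, hce, AddMonoidAlgebra.coeff_mul_single_apply, LaurentPolynomial.invert_apply]
    congr 2
    ring
  have hdeg : ∀ S : Finset ι, D S ≠ 0 → ((D S).natDegree : ℤ) ≤ n := by
    intro S hS
    by_contra hlt
    push Not at hlt
    have h1 := hcoef S (n - (D S).natDegree)
    rw [coeff_toLaurent_neg _ _ (by omega), sub_sub_cancel, coeff_toLaurent_nat] at h1
    have h2 : (D S).leadingCoeff ≠ 0 := leadingCoeff_ne_zero.mpr hS
    exact mul_ne_zero h2 hε0 h1.symm
  have hn0 : 0 ≤ n := le_trans (Int.natCast_nonneg _) (hdeg ∅ h0)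
  obtain ⟨N, rfl⟩ := Int.eq_ofNat_of_zero_le hn0
  refine ⟨N, ε, hε, ?_, ?_⟩
  · intro S
    by_cases hS : D S = 0
    · rw [hS, natDegree_zero]
      exact Nat.zero_le _
    · exact_mod_cast hdeg S hS
  · intro S
    ext k
    rw [coeff_C_mul, coeff_reflect]
    have h1 := hcoef S (k : ℤ)
    rw [coeff_toLaurent_nat] at h1
    rw [h1, mul_comm]
    congr 1
    rcases Nat.lt_or_ge N k with hk | hk
    · rw [coeff_toLaurent_neg _ _ (by omega), revAt_eq_self_of_lt hk]
      symm
      apply coeff_eq_zero_of_natDegree_lt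
      by_cases hS : D S = 0
      · rw [hS, natDegree_zero]
        omega
      · have := hdeg S hS
        have h2 : (D S).natDegree ≤ N := by exact_mod_cast this
        omega
    · rw [revAt_le hk, ← coeff_toLaurent_nat]
      congr 1
      omega

end Pool.Agent.MP_b5021c_nt.Unr
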