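import Pool.Agent.Lib.MP_b5021c_nt.IfaceK2

/-!
# MP_b5021c_nt, row QEX: existence and uniqueness of the quotient sequence
-/

namespace Pool.Agent.MP_b5021c_nt.Qex

open Polynomial Pool.Agent.MP_b5021c_nt

theorem qex : QexS := by
  intro Y Q hQ
  have hu : IsUnit (Q : PowerSeries ℤ) := by
    rw [PowerSeries.isUnit_iff_constantCoeff, Polynomial.constantCoeff_coe, hQ]
    exact isUnit_one
  obtain ⟨u, hu⟩ := hu
  refine ⟨fun n => PowerSeries.coeff n ((Y : PowerSeries ℤ) * ((u⁻¹ : (PowerSeries ℤ)ˣ) :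
    PowerSeries ℤ)), ?_, ?_⟩
  · change PowerSeries.mk _ * (Q : PowerSeries ℤ) = (Y : PowerSeries ℤ)
    have h1 : (PowerSeries.mk fun n => PowerSeries.coeff n ((Y : PowerSeries ℤ) *
        ((u⁻¹ : (PowerSeries ℤ)ˣ) : PowerSeries ℤ)))
        = (Y : PowerSeries ℤ) * ((u⁻¹ : (PowerSeries ℤ)ˣ) : PowerSeries ℤ) := by
      ext n
      rw [PowerSeries.coeff_mk]
    rw [h1, ← hu, mul_assoc, Units.inv_mul, mul_one]
  · intro b hb
    have hb' : PowerSeries.mk b * (Q : PowerSeries ℤ) = (Y : PowerSeries ℤ) := hb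
    funext n
    rw [← hb', ← hu, mul_assoc, Units.mul_inv, mul_one, PowerSeries.coeff_mk]

end Pool.Agent.MP_b5021c_nt.Qex
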