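import Pool.Agent.Lib.MP_b5021c_nt.IfaceK2
import Pool.Agent.Lib.MP_b5021c_nt.K.H70.Unr

/-!
# MP_b5021c_nt, row LFA: a reducible `D` has `D_S = ± z^m D_∅` for some nonempty `S`

Elementary version: only the additivity of the minimum of a coordinate on the support is used.
-/

namespace Pool.Agent.MP_b5021c_nt.Lfa

open Polynomial Pool.Agent.B5 Pool.Agent.MP_b5021c_nt

/-- The lowest parts of two factors do not cancel. -/
theorem low_mul {L : Type} [AddCommGroup L] [Module.Free ℤ L] [Module.Finite ℤ L]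
    (lam : L →+ ℤ) (G H : A L) (c d : ℤ)
    (hG : ∀ a ∈ supp G, c ≤ lam a) (hG' : ∃ a ∈ supp G, lam a = c)
    (hH : ∀ a ∈ supp H, d ≤ lam a) (hH' : ∃ a ∈ supp H, lam a = d) :
    ∃ x ∈ supp (G * H), lam x = c + d := by
  classical
  obtain ⟨G0, cG⟩ : ∃ G0 : A L, ∀ a, G0.coeff a = if lam a = c then G.coeff a else 0 :=
    ⟨AddMonoidAlgebra.ofCoeff (G.coeff.filter fun a => lam a = c), fun a => Finsupp.filter_apply _ _ _⟩
  obtain ⟨H0, cH⟩ : ∃ H0 : A L, ∀ a, H0.coeff a = if lam a = d then H.coeff a else 0 :=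
    ⟨AddMonoidAlgebra.ofCoeff (H.coeff.filter fun a => lam a = d), fun a => Finsupp.filter_apply _ _ _⟩
  have nG : G0 ≠ 0 := by
    obtain ⟨a, ha, hac⟩ := hG'
    intro h
    have h1 := cG a
    rw [h, if_pos hac] at h1
    exact ha h1.symm
  have nH : H0 ≠ 0 := by
    obtain ⟨a, ha, hac⟩ := hH'
    intro h
    have h1 := cH a
    rw [h, if_pos hac] at h1
    exact ha h1.symm
  have nP : G0 * H0 ≠ 0 := mul_ne_zero nG nH
  obtain ⟨x, hx⟩ : ∃ x, (G0 * H0).coeff x ≠ 0 := by
    by_contra hh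
    push Not at hh
    exact nP (AddMonoidAlgebra.coeff_inj.mp (Finsupp.ext fun x => hh x))
  have dec : ∀ (F K : A L) (y : L), (F * K).coeff y ≠ 0 →
      ∃ a b, F.coeff a ≠ 0 ∧ K.coeff b ≠ 0 ∧ a + b = y := by
    intro F K y hy
    have hym : y ∈ (F * K).coeff.support := Finsupp.mem_support_iff.mpr hy
    obtain ⟨a, ha, b, hb, hab⟩ := Finset.mem_add.mp (AddMonoidAlgebra.support_coeff_mul_subset _ _ hym)
    exact ⟨a, b, Finsupp.mem_support_iff.mp ha, Finsupp.mem_support_iff.mp hb, hab⟩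
  have eG : ∀ a, G0.coeff a ≠ 0 → lam a = c := by
    intro a ha
    rw [cG a] at ha
    by_contra hne
    rw [if_neg hne] at ha
    exact ha rfl
  have eH : ∀ a, H0.coeff a ≠ 0 → lam a = d := by
    intro a ha
    rw [cH a] at ha
    by_contra hne
    rw [if_neg hne] at ha
    exact ha rfl
  have fG : ∀ a, (G - G0).coeff a ≠ 0 → c < lam a := by
    intro a ha
    have h1 : (G - G0).coeff a = G.coeff a - G0.coeff a := rfl
    rw [h1, cG a] at ha
    split_ifs at ha with h2
    · exact absurd (sub_self _) ha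
    · rw [sub_zero] at ha
      exact lt_of_le_of_ne (hG a ha) (Ne.symm h2)
  have fH : ∀ a, (H - H0).coeff a ≠ 0 → d < lam a := by
    intro a ha
    have h1 : (H - H0).coeff a = H.coeff a - H0.coeff a := rfl
    rw [h1, cH a] at ha
    split_ifs at ha with h2
    · exact absurd (sub_self _) ha
    · rw [sub_zero] at ha
      exact lt_of_le_of_ne (hH a ha) (Ne.symm h2)
  have hlx : lam x = c + d := by
    obtain ⟨a, b, ha, hb, hab⟩ := dec _ _ _ hx
    rw [← hab, map_add, eG a ha, eH b hb]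
  refine ⟨x, ?_, hlx⟩
  have e : G * H = G0 * H0 + (G0 * (H - H0) + (G - G0) * H) := by ring
  have z1 : (G0 * (H - H0)).coeff x = 0 := by
    by_contra hne
    obtain ⟨a, b, ha, hb, hab⟩ := dec _ _ _ hne
    have h1 := eG a ha
    have h2 := fH b hb
    rw [← hab, map_add] at hlx
    omega
  have z2 : ((G - G0) * H).coeff x = 0 := by
    by_contra hne
    obtain ⟨a, b, ha, hb, hab⟩ := dec _ _ _ hne
    have h1 := fG a ha
    have h2 := hH b hb
    rw [← hab, map_add] at hlx
    omega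
  change (G * H).coeff x ≠ 0
  rw [e]
  change (G0 * H0).coeff x + ((G0 * (H - H0)).coeff x + ((G - G0) * H).coeff x) ≠ 0
  rw [z1, z2, add_zero, add_zero]
  exact hx

/-- A1 for polynomials: an integral polynomial bounded by one on the unit circle. -/
theorem small_poly (p : ℤ[X]) (hp : p ≠ 0) (h : ∀ z : ℂ, ‖z‖ = 1 → ‖pv p z‖ ≤ 1) :
    ∃ (m : ℕ) (ε : ℤ), (ε = 1 ∨ ε = -1) ∧ p = C ε * X ^ m := by
  set q : ℂ[X] := p.map (Int.castRingHom ℂ) with hq
  have hpar := q.sum_sq_norm_coeff_eq_circleAverage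
  have hci : CircleIntegrable (fun z : ℂ => ‖q.eval z‖ ^ 2) 0 1 := by
    apply ContinuousOn.circleIntegrable zero_le_one
    exact ((q.continuous.norm).pow 2).continuousOn
  have hle : Real.circleAverage (fun z : ℂ => ‖q.eval z‖ ^ 2) 0 1 ≤ 1 := by
    apply Real.circleAverage_mono_on_of_le_circle hci
    intro z hz
    have hz1 : ‖z‖ = 1 := by
      rw [mem_sphere_zero_iff_norm, abs_one] at hz
      exact hz
    have h1 : ‖q.eval z‖ ≤ 1 := by
      have h2 := h z hz1
      rwa [pv, aeval_def, eval₂_eq_eval_map] at h2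
    have h3 := norm_nonneg (q.eval z)
    nlinarith
  rw [← hpar] at hle
  have hcoe : ∀ i, ‖q.coeff i‖ ^ 2 = ((p.coeff i : ℝ)) ^ 2 := by
    intro i
    rw [hq, coeff_map]
    simp
  have hint : ∀ i ∈ q.support, (1 : ℝ) ≤ ‖q.coeff i‖ ^ 2 := by
    intro i hi
    rw [hcoe i]
    have h1 : p.coeff i ≠ 0 := by
      intro h0
      rw [mem_support_iff, hq, coeff_map, h0] at hi
      simp at hi
    have h2 : (1 : ℤ) ≤ (p.coeff i) ^ 2 := by
      have := sq_nonneg (p.coeff i)
      have h3 : (p.coeff i) ^ 2 ≠ 0 := pow_ne_zero 2 h1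
      omega
    exact_mod_cast h2
  have hcard : (q.support.card : ℝ) ≤ 1 := by
    have h1 : ∑ i ∈ q.support, (1 : ℝ) ≤ ∑ i ∈ q.support, ‖q.coeff i‖ ^ 2 := Finset.sum_le_sum hint
    rw [Finset.sum_const, nsmul_eq_mul, mul_one] at h1
    linarith
  have hcard1 : q.support.card ≤ 1 := by exact_mod_cast hcard
  have hsup : q.support = p.support := by
    ext i
    rw [mem_support_iff, mem_support_iff, hq, coeff_map]
    simp
  rw [hsup] at hcard1
  obtain ⟨m, a, ha, hpa⟩ : ∃ m a, a ≠ 0 ∧ p = C a * X ^ m := by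
    have h1 : p.support.card = 1 := by
      have h2 : 0 < p.support.card := Finset.card_pos.mpr (by
        rw [Finset.nonempty_iff_ne_empty, ne_eq, support_eq_empty]
        exact hp)
      omega
    obtain ⟨n, x, hx, e⟩ := card_support_eq_one.mp h1
    exact ⟨n, x, hx, e⟩
  refine ⟨m, a, ?_, hpa⟩
  have h1 := h 1 norm_one
  rw [hpa, pv] at h1
  simp only [map_mul, aeval_C, map_pow, aeval_X, one_pow, mul_one] at h1
  have h2 : |a| ≤ 1 := by
    have h3 : ‖((a : ℤ) : ℂ)‖ ≤ 1 := by simpa using h1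
    rw [Complex.norm_intCast] at h3
    exact_mod_cast h3
  have h4 := abs_le.mp h2
  omega

/-- An integral polynomial with constant term `±1` and no zeros in the closed disc is constant. -/
theorem const_of_free (h : ℤ[X]) (h0 : h.coeff 0 = 1 ∨ h.coeff 0 = -1)
    (hf : ∀ z : ℂ, ‖z‖ ≤ 1 → pv h z ≠ 0) : h = C (h.coeff 0) := by
  set q : ℂ[X] := h.map (Int.castRingHom ℂ) with hq
  have hh : h ≠ 0 := by
    rintro rfl
    simp at h0
  have hinj : Function.Injective (Int.castRingHom ℂ) := by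
    intro x y hxy
    simpa using hxy
  have hq0 : q ≠ 0 := (Polynomial.map_ne_zero_iff hinj).mpr hh
  have hroot : ∀ r ∈ q.roots, 1 < ‖r‖ := by
    intro r hr
    by_contra hle
    push Not at hle
    apply hf r hle
    rw [pv, aeval_def, eval₂_eq_eval_map]
    exact (mem_roots'.mp hr).2
  have hs := (IsAlgClosed.splits q).coeff_zero_eq_leadingCoeff_mul_prod_roots
  have hn : ‖q.coeff 0‖ = 1 := by
    rw [hq, coeff_map]
    rcases h0 with h1 | h1 <;> rw [h1] <;> simp
  have hdeg : q.natDegree = 0 := by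
    by_contra hd
    have hcard : q.roots.card = q.natDegree := (IsAlgClosed.splits q).natDegree_eq_card_roots.symm
    have hne : q.roots ≠ 0 := by
      intro h2
      rw [h2] at hcard
      simp at hcard
      exact hd hcard.symm
    have hlead : (1 : ℝ) ≤ ‖q.leadingCoeff‖ := by
      rw [hq, leadingCoeff_map_of_injective hinj]
      have h3 : h.leadingCoeff ≠ 0 := leadingCoeff_ne_zero.mpr hh
      have h4 : (1 : ℤ) ≤ |h.leadingCoeff| := Int.one_le_abs h3
      have h5 : ‖(Int.castRingHom ℂ) h.leadingCoeff‖ = |(h.leadingCoeff : ℝ)| := by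
        simp
      rw [h5]
      exact_mod_cast h4
    have hprod : 1 < ‖q.roots.prod‖ := by
      have key : ∀ s : Multiset ℂ, s ≠ 0 → (∀ r ∈ s, 1 < ‖r‖) → 1 < ‖s.prod‖ := by
        intro s
        induction s using Multiset.induction_on with
        | empty => intro h6; exact absurd rfl h6
        | cons a s ih =>
          intro _ h7
          rw [Multiset.prod_cons, norm_mul]
          have h8 : 1 < ‖a‖ := h7 a (Multiset.mem_cons_self a s)
          by_cases hs0 : s = 0
          · rw [hs0]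
            simpa using h8
          · have h9 := ih hs0 (fun r hr => h7 r (Multiset.mem_cons_of_mem hr))
            nlinarith
      exact key _ hne hroot
    have h10 : ‖q.coeff 0‖ = ‖q.leadingCoeff‖ * ‖q.roots.prod‖ := by
      rw [hs]
      simp
    rw [hn] at h10
    nlinarith
  have hdeg2 : h.natDegree = 0 := by
    rw [hq, natDegree_map_eq_of_injective hinj] at hdeg
    exact hdeg
  exact eq_C_of_natDegree_eq_zero hdeg2

/-- Normal form of a Laurent polynomial. -/
theorem normal (f : R) (hf : f ≠ 0) :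
    ∃ (n : ℤ) (p : ℤ[X]), p.coeff 0 ≠ 0 ∧ f = LaurentPolynomial.T n * Polynomial.toLaurent p := by
  obtain ⟨k, f', hf'⟩ := f.exists_T_pow
  have hf0 : f' ≠ 0 := by
    rintro rfl
    rw [map_zero] at hf'
    have h1 : f * LaurentPolynomial.T (k : ℤ) * LaurentPolynomial.T (-(k : ℤ)) = 0 := by
      rw [← hf', zero_mul]
    rw [mul_assoc, ← LaurentPolynomial.T_add, add_neg_cancel, LaurentPolynomial.T_zero, mul_one] at h1
    exact hf h1
  obtain ⟨q, hq, hq2⟩ := exists_eq_pow_rootMultiplicity_mul_and_not_dvd f' hf0 0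
  rw [map_zero, sub_zero] at hq hq2
  refine ⟨(f'.rootMultiplicity 0 : ℤ) - k, q, ?_, ?_⟩
  · intro h0
    exact hq2 (X_dvd_iff.mpr h0)
  · have h1 : f = Polynomial.toLaurent f' * LaurentPolynomial.T (-(k : ℤ)) := by
      rw [hf', mul_assoc, ← LaurentPolynomial.T_add, add_neg_cancel, LaurentPolynomial.T_zero, mul_one]
    have h2 : Polynomial.toLaurent f' = LaurentPolynomial.T (f'.rootMultiplicity 0 : ℤ)
        * Polynomial.toLaurent q := by
      conv_lhs => rw [hq]
      rw [map_mul, Polynomial.toLaurent_X_pow]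
    rw [h1, h2, sub_eq_add_neg, LaurentPolynomial.T_add]
    ring

theorem coeff_T_mul (n : ℤ) (f : R) (k : ℤ) : (LaurentPolynomial.T n * f).coeff k = f.coeff (k - n) := by
  have h : (LaurentPolynomial.T n : R) = AddMonoidAlgebra.single n 1 := rfl
  rw [h, AddMonoidAlgebra.coeff_single_mul_apply, one_mul]
  congr 1
  ring

/-- On the circle `D_∅ ≠ 0`. -/
theorem one_ne {Q : ℤ[X]} {θ : ℝ} (h : OneZero Q θ) (z : ℂ) (hz : ‖z‖ ≤ 1) (hz2 : (θ : ℂ) * z ≠ 1) :
    pv Q z ≠ 0 := by
  obtain ⟨h1, h2, g, hg, hg2⟩ := h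
  rw [pv, aeval_def, eval₂_eq_eval_map]
  have e : (algebraMap ℤ ℂ) = Int.castRingHom ℂ := rfl
  rw [e, hg, eval_mul]
  apply mul_ne_zero
  · simp only [eval_sub, eval_one, eval_mul, eval_C, eval_X]
    intro h3
    exact hz2 (sub_eq_zero.mp h3).symm
  · exact hg2 z hz

/-- The circle bound for the coefficients. -/
theorem coe_circle (hcoe : CoeS) {ι : Type} [Fintype ι] [DecidableEq ι] (D : Finset ι → ℤ[X])
    (hfree : PolyFree D) (z : ℂ) (hz : ‖z‖ = 1) (S : Finset ι) : ‖pv (D S) z‖ ≤ ‖pv (D ∅) z‖ := by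
  apply hcoe ι (fun S => pv (D S) z)
  intro w hw
  exact hfree z w hz hw

theorem core (htco : TcoS) (hcoe : CoeS) {ι : Type} [Fintype ι] [DecidableEq ι] (D : Finset ι → ℤ[X])
    (θ : ℝ) (hfree : PolyFree D) (hone : OneZero (D ∅) θ) (G H : A (ι → ℤ)) (m : ι → ℤ)
    (hGH : G * H = toA D)
    (hGm : ∀ a ∈ supp G, ∀ i, m i ≤ a i) (hHm : ∀ b ∈ supp H, ∀ i, -m i ≤ b i)
    (hmax : ∀ a ∈ supp G, ∀ b ∈ supp H, ∀ i, a i + b i ≤ 1)
    (hH : ¬ IsUnit H) (n ε : ℤ) (hε : ε = 1 ∨ ε = -1)
    (hH0 : H.coeff (-m) = AddMonoidAlgebra.single n ε) (hmG : G.coeff m ≠ 0) :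
    ∃ (S : Finset ι) (m : ℕ) (ε : ℤ), S ≠ ∅ ∧ (ε = 1 ∨ ε = -1) ∧ D S = C ε * X ^ m * D ∅ := by
  classical
  obtain ⟨hc1, hc2⟩ := htco ι D
  have hεε : ε * ε = 1 := by rcases hε with h | h <;> rw [h] <;> norm_num
  -- a second exponent of H
  obtain ⟨b, hb, hbm⟩ : ∃ b ∈ supp H, b ≠ -m := by
    by_contra hh
    push Not at hh
    apply hH
    have h1 : H = AddMonoidAlgebra.single (-m) (AddMonoidAlgebra.single n ε) := by
      apply AddMonoidAlgebra.coeff_inj.mp
      rw [AddMonoidAlgebra.coeff_single, ← hH0]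
      apply Finsupp.ext
      intro x
      rw [Finsupp.single_apply]
      split_ifs with h2
      · rw [h2]
      · by_contra h3
        exact h2 (hh x h3).symm
    rw [h1]
    have h2 : (AddMonoidAlgebra.single (-m) (AddMonoidAlgebra.single n ε : R) : A (ι → ℤ)) *
        AddMonoidAlgebra.single m (AddMonoidAlgebra.single (-n) ε : R) = 1 := by
      rw [AddMonoidAlgebra.single_mul_single, neg_add_cancel, AddMonoidAlgebra.one_def]
      congr 1
      have h3 : (AddMonoidAlgebra.single n ε : AddMonoidAlgebra ℤ ℤ) * AddMonoidAlgebra.single (-n) ε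
          = 1 := by
        rw [AddMonoidAlgebra.single_mul_single, add_neg_cancel, hεε, AddMonoidAlgebra.one_def]
      exact h3
    exact IsUnit.of_mul_eq_one _ h2
  have hb1 : ∀ i, b i + m i ≤ 1 := by
    intro i
    have := hmax m hmG b hb i
    omega
  have hb0 : ∀ i, 0 ≤ b i + m i := by
    intro i
    have := hHm b hb i
    omega
  set S : Finset ι := Finset.univ.filter (fun i => b i + m i = 1) with hS
  have hSne : S ≠ ∅ := by
    intro h0
    apply hbm
    funext i
    have h1 : i ∉ S := by rw [h0]; exact Finset.notMem_empty i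
    rw [hS, Finset.mem_filter] at h1
    have h2 : b i + m i ≠ 1 := fun h3 => h1 ⟨Finset.mem_univ i, h3⟩
    have h3 := hb1 i
    have h4 := hb0 i
    rw [Pi.neg_apply]
    omega
  have hind : ind S = m + b := by
    funext i
    have h3 := hb1 i
    have h4 := hb0 i
    simp only [ind, hS, Finset.mem_filter, Finset.mem_univ, true_and, Pi.add_apply]
    split_ifs with h5 <;> omega
  have u1 : UniqueAdd G.coeff.support H.coeff.support m b := by
    intro a' b' ha' hb' hab
    have ha2 : a' ∈ supp G := Finsupp.mem_support_iff.mp ha'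
    have hb2 : b' ∈ supp H := Finsupp.mem_support_iff.mp hb'
    have hh : ∀ i, a' i = m i ∧ b' i = b i := by
      intro i
      have h1 := congrFun hab i
      simp only [Pi.add_apply] at h1
      have h2 := hGm a' ha2 i
      have h3 := hHm b' hb2 i
      have h4 := hmax a' ha2 b hb i
      have h5 := hb1 i
      have h6 := hb0 i
      constructor <;> omega
    exact ⟨funext fun i => (hh i).1, funext fun i => (hh i).2⟩
  have u2 : UniqueAdd G.coeff.support H.coeff.support m (-m) := by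
    intro a' b' ha' hb' hab
    have ha2 : a' ∈ supp G := Finsupp.mem_support_iff.mp ha'
    have hb2 : b' ∈ supp H := Finsupp.mem_support_iff.mp hb'
    have hh : ∀ i, a' i = m i ∧ b' i = (-m) i := by
      intro i
      have h1 := congrFun hab i
      simp only [Pi.add_apply, Pi.neg_apply] at h1
      have h2 := hGm a' ha2 i
      have h3 := hHm b' hb2 i
      rw [Pi.neg_apply]
      constructor <;> omega
    exact ⟨funext fun i => (hh i).1, funext fun i => (hh i).2⟩
  have e1 := AddMonoidAlgebra.coeff_mul_add_of_uniqueAdd u1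
  have e2 := AddMonoidAlgebra.coeff_mul_add_of_uniqueAdd u2
  have hi0 : ind (∅ : Finset ι) = 0 := by
    funext i
    simp [ind]
  rw [hGH, ← hind, hc1 S] at e1
  rw [hGH, add_neg_cancel, ← hi0, hc1 ∅, hH0] at e2
  -- toLaurent (D S) * single n ε = toLaurent (D ∅) * H_b
  have e3 : Polynomial.toLaurent (D S) * (AddMonoidAlgebra.single n ε : R)
      = Polynomial.toLaurent (D ∅) * H.coeff b := by
    rw [e1, e2]
    ring
  obtain ⟨k, p, hp0, hpk⟩ := normal (H.coeff b) hb
  have hsing : (AddMonoidAlgebra.single n ε : R) = LaurentPolynomial.T n * Polynomial.toLaurent (C ε) := by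
    rw [Polynomial.toLaurent_C]
    have h1 := LaurentPolynomial.single_eq_C_mul_T ε n
    rw [mul_comm]
    exact h1
  have e4 : LaurentPolynomial.T n * Polynomial.toLaurent (D S * C ε)
      = LaurentPolynomial.T k * Polynomial.toLaurent (D ∅ * p) := by
    rw [hsing, hpk] at e3
    rw [map_mul, map_mul]
    linear_combination e3
  have h00 : (D ∅ * p).coeff 0 ≠ 0 := by
    rw [mul_coeff_zero, hone.2.1, one_mul]
    exact hp0
  have hnk : n ≤ k := by
    by_contra hlt
    push Not at hlt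
    have h1 := congrArg (fun F : R => F.coeff k) e4
    simp only [coeff_T_mul] at h1
    rw [sub_self, Unr.coeff_toLaurent_neg _ _ (by omega)] at h1
    have h2 := Unr.coeff_toLaurent_nat (D ∅ * p) 0
    rw [Nat.cast_zero] at h2
    rw [h2] at h1
    exact h00 h1.symm
  obtain ⟨j, hj⟩ := Int.eq_ofNat_of_zero_le (sub_nonneg.mpr hnk)
  have e5 : D S * C ε = X ^ j * (D ∅ * p) := by
    apply Polynomial.toLaurent_injective
    rw [map_mul (Polynomial.toLaurent) (X ^ j) _, Polynomial.toLaurent_X_pow, ← hj]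
    have h1 : LaurentPolynomial.T (-n) * (LaurentPolynomial.T n * Polynomial.toLaurent (D S * C ε))
        = LaurentPolynomial.T (-n) * (LaurentPolynomial.T k * Polynomial.toLaurent (D ∅ * p)) := by
      rw [e4]
    rw [← mul_assoc, ← mul_assoc, ← LaurentPolynomial.T_add, ← LaurentPolynomial.T_add,
      neg_add_cancel, LaurentPolynomial.T_zero, one_mul] at h1
    rw [h1]
    congr 2
    ring
  have hθ := hone.1
  have hp : p ≠ 0 := by
    rintro rfl
    exact hp0 rfl
  have hsmall : ∀ z : ℂ, ‖z‖ = 1 → ‖pv p z‖ ≤ 1 := by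
    intro z hz
    have h1 : pv (D ∅) z ≠ 0 := by
      apply one_ne hone z hz.le
      intro h2
      have h3 := congrArg norm h2
      rw [norm_mul, hz, mul_one, Complex.norm_real, norm_one, Real.norm_eq_abs, abs_of_pos (by linarith)]
        at h3
      linarith
    have h2 := coe_circle hcoe D hfree z hz S
    have h3 : ‖pv (D S * C ε) z‖ = ‖pv (X ^ j * (D ∅ * p)) z‖ := by rw [e5]
    simp only [pv, map_mul, map_pow, aeval_X, aeval_C, norm_mul, norm_pow, hz, one_pow, one_mul] at h3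
    have h4 : ‖(algebraMap ℤ ℂ) ε‖ = 1 := by
      rcases hε with h | h <;> rw [h] <;> simp
    rw [h4, mul_one] at h3
    have h5 : 0 < ‖pv (D ∅) z‖ := norm_pos_iff.mpr h1
    have h6 : ‖pv (D ∅) z‖ * ‖pv p z‖ ≤ ‖pv (D ∅) z‖ * 1 := by
      rw [mul_one]
      exact h3.symm.le.trans h2
    exact le_of_mul_le_mul_left h6 h5
  obtain ⟨m', ε', hε', hpe⟩ := small_poly p hp hsmall
  refine ⟨S, j + m', ε * ε', hSne, ?_, ?_⟩
  · rcases hε with h | h <;> rcases hε' with h' | h' <;> rw [h, h'] <;> norm_num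
  · have h1 : D S = D S * C ε * C ε := by
      rw [mul_assoc, ← C_mul, hεε, C_1, mul_one]
    rw [h1, e5, hpe, C_mul, pow_add]
    ring

/-- If `g h = D_∅` and `h` does not vanish at `1/θ` then `h = ± 1`. -/
theorem side {Q g h : ℤ[X]} {θ : ℝ} (hone : OneZero Q θ) (hQ : Q = g * h)
    (h1 : pv h ((θ : ℂ)⁻¹) ≠ 0) : ∃ ε : ℤ, (ε = 1 ∨ ε = -1) ∧ h = C ε := by
  have h0 : h.coeff 0 = 1 ∨ h.coeff 0 = -1 := by
    have h2 := hone.2.1
    rw [hQ, mul_coeff_zero] at h2
    exact Int.isUnit_iff.mp (IsUnit.of_mul_eq_one_right _ h2)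
  refine ⟨h.coeff 0, h0, const_of_free h h0 ?_⟩
  intro z hz hz0
  have hθ0 : (θ : ℂ) ≠ 0 := by
    have := hone.1
    exact_mod_cast (by linarith : (θ : ℝ) ≠ 0)
  by_cases h3 : (θ : ℂ) * z = 1
  · apply h1
    have h4 : (θ : ℂ)⁻¹ = z := by
      rw [← mul_one ((θ : ℂ)⁻¹), ← h3]
      field_simp
    rw [h4]
    exact hz0
  · apply one_ne hone z hz h3
    rw [hQ, pv, map_mul]
    have h5 : aeval z h = 0 := hz0
    rw [h5, mul_zero]

/-- One of the two factors does not vanish at `1/θ`. -/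
theorem side_or {Q g h : ℤ[X]} {θ : ℝ} (hone : OneZero Q θ) (hQ : Q = g * h) :
    pv h ((θ : ℂ)⁻¹) ≠ 0 ∨ pv g ((θ : ℂ)⁻¹) ≠ 0 := by
  by_contra hh
  push Not at hh
  obtain ⟨hh1, hh2⟩ := hh
  obtain ⟨h1, h2, k, hk, hk2⟩ := hone
  have hθ0 : (θ : ℂ) ≠ 0 := by
    exact_mod_cast (by linarith : (θ : ℝ) ≠ 0)
  have er : ∀ f : ℤ[X], pv f ((θ : ℂ)⁻¹) = 0 →
      ∃ f' : ℂ[X], f.map (Int.castRingHom ℂ) = (1 - C (θ : ℂ) * X) * f' := by
    intro f hf
    have h3 : (f.map (Int.castRingHom ℂ)).IsRoot ((θ : ℂ)⁻¹) := by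
      rw [IsRoot, ← eval₂_eq_eval_map]
      exact hf
    obtain ⟨f', hf'⟩ := dvd_iff_isRoot.mpr h3
    refine ⟨C (-(θ : ℂ)⁻¹) * f', ?_⟩
    rw [hf', ← mul_assoc]
    congr 1
    have h4 : C (θ : ℂ) * C ((θ : ℂ)⁻¹) = (1 : ℂ[X]) := by
      rw [← C_mul, mul_inv_cancel₀ hθ0, C_1]
    rw [C_neg]
    linear_combination (-X : ℂ[X]) * h4
  obtain ⟨g', hg'⟩ := er g hh2
  obtain ⟨h', hh'⟩ := er h hh1
  have hne : (1 - C (θ : ℂ) * X : ℂ[X]) ≠ 0 := by
    intro h3
    have h4 := congrArg (fun F : ℂ[X] => F.eval 0) h3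
    simp at h4
  have h5 : (1 - C (θ : ℂ) * X) * k = (1 - C (θ : ℂ) * X) * ((1 - C (θ : ℂ) * X) * (g' * h')) := by
    rw [← hk, hQ, Polynomial.map_mul, hg', hh']
    ring
  have h6 := mul_left_cancel₀ hne h5
  apply hk2 ((θ : ℂ)⁻¹)
  · rw [norm_inv, Complex.norm_real, Real.norm_eq_abs, abs_of_pos (by linarith)]
    exact inv_le_one_of_one_le₀ h1.le
  · rw [h6]
    simp only [eval_mul, eval_sub, eval_one, eval_C, eval_X]
    rw [mul_inv_cancel₀ hθ0]
    ring

/-- The minimum of a functional on the support. -/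
theorem exists_min {L : Type} [AddCommGroup L] (lam : L →+ ℤ) (G : A L) (hG : G ≠ 0) :
    ∃ a ∈ supp G, ∀ b ∈ supp G, lam a ≤ lam b := by
  classical
  have hne : G.coeff.support.Nonempty := by
    rw [Finsupp.support_nonempty_iff]
    exact fun h0 => hG (AddMonoidAlgebra.coeff_inj.mp (by rw [h0]; rfl))
  obtain ⟨a, ha, hmin⟩ := Finset.exists_min_image G.coeff.support (fun a => lam a) hne
  exact ⟨a, Finsupp.mem_support_iff.mp ha, fun b hb => hmin b (Finsupp.mem_support_iff.mpr hb)⟩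

theorem lfa (htco : TcoS) (hcoe : CoeS) : LfaS := by
  intro ι _ _ D θ hfree hone hirr
  classical
  obtain ⟨hc1, hc2⟩ := htco ι D
  have hi0 : ind (∅ : Finset ι) = 0 := by
    funext i
    simp [ind]
  have hD0 : D ∅ ≠ 0 := by
    intro h0
    have := hone.2.1
    rw [h0, coeff_zero] at this
    exact zero_ne_one this
  have hL0 : (toA D).coeff (0 : ι → ℤ) ≠ 0 := by
    rw [← hi0, hc1 ∅]
    exact Polynomial.toLaurent_ne_zero.mpr hD0
  have hDne : toA D ≠ 0 := by
    intro h0
    rw [h0] at hL0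
    exact hL0 rfl
  -- toA D is not a unit
  have hnu : ¬ IsUnit (toA D) := by
    intro hu
    obtain ⟨v, hv⟩ := isUnit_iff_exists_inv.mp hu
    obtain ⟨a, c, hc, hac⟩ := Unr.mono_of_mul_one (toA D) v hv
    obtain ⟨n, ε, hε, hce⟩ := Unr.unit_R c hc
    have ha : a = 0 := by
      by_contra hne
      apply hL0
      rw [hac, AddMonoidAlgebra.coeff_single, Finsupp.single_apply, if_neg hne]
    have h1 : Polynomial.toLaurent (D ∅) = (AddMonoidAlgebra.single n ε : R) := by
      rw [← hc1 ∅, hi0, hac, ha, AddMonoidAlgebra.coeff_single, Finsupp.single_apply, if_pos rfl, hce]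
    have hn : n = 0 := by
      by_contra hne
      have h2 := Unr.coeff_toLaurent_nat (D ∅) 0
      rw [h1, Nat.cast_zero, hone.2.1, AddMonoidAlgebra.coeff_single, Finsupp.single_apply, if_neg hne] at h2
      exact zero_ne_one h2
    have h3 : D ∅ = C ε := by
      apply Polynomial.toLaurent_injective
      rw [h1, hn, Polynomial.toLaurent_C]
      have h4 := LaurentPolynomial.single_eq_C_mul_T ε 0
      rw [LaurentPolynomial.T_zero, mul_one] at h4
      exact h4
    obtain ⟨h5, h6, k, hk, hk2⟩ := hone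
    have hθ0 : (θ : ℂ) ≠ 0 := by
      exact_mod_cast (by linarith : (θ : ℝ) ≠ 0)
    have h7 := congrArg (fun F : ℂ[X] => F.eval ((θ : ℂ)⁻¹)) hk
    simp only [h3, Polynomial.map_C, eval_C, eval_mul, eval_sub, eval_one, eval_X,
      mul_inv_cancel₀ hθ0, sub_self, zero_mul] at h7
    rcases hε with h | h <;> rw [h] at h7 <;> simp at h7
  rw [irreducible_iff] at hirr
  push Not at hirr
  obtain ⟨G, H, hGH, hGu, hHu⟩ := hirr hnu
  have hG0 : G ≠ 0 := by
    rintro rfl
    rw [zero_mul] at hGH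
    exact hDne hGH
  have hH0 : H ≠ 0 := by
    rintro rfl
    rw [mul_zero] at hGH
    exact hDne hGH
  -- minima and maxima of the coordinates
  let e : ι → ((ι → ℤ) →+ ℤ) := fun i => Pi.evalAddMonoidHom (fun _ : ι => ℤ) i
  have hmin : ∀ i, ∃ c d : ℤ, (∀ a ∈ supp G, c ≤ a i) ∧ (∀ b ∈ supp H, d ≤ b i) ∧ 0 ≤ c + d := by
    intro i
    obtain ⟨a, ha, ha2⟩ := exists_min (e i) G hG0
    obtain ⟨b, hb, hb2⟩ := exists_min (e i) H hH0
    obtain ⟨x, hx, hx2⟩ := low_mul (e i) G H (e i a) (e i b) ha2 ⟨a, ha, rfl⟩ hb2 ⟨b, hb, rfl⟩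
    refine ⟨a i, b i, ha2, hb2, ?_⟩
    rw [← hGH] at hx
    obtain ⟨S, hS, _⟩ := hc2 x hx
    have h1 : e i x = x i := rfl
    have h2 : e i a + e i b = a i + b i := rfl
    rw [h1, h2, hS] at hx2
    rw [← hx2, ind]
    split_ifs <;> norm_num
  have hmax : ∀ a ∈ supp G, ∀ b ∈ supp H, ∀ i, a i + b i ≤ 1 := by
    intro a0 ha0 b0 hb0 i
    obtain ⟨a, ha, ha2⟩ := exists_min (-(e i)) G hG0
    obtain ⟨b, hb, hb2⟩ := exists_min (-(e i)) H hH0
    obtain ⟨x, hx, hx2⟩ := low_mul (-(e i)) G H _ _ ha2 ⟨a, ha, rfl⟩ hb2 ⟨b, hb, rfl⟩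
    rw [← hGH] at hx
    obtain ⟨S, hS, _⟩ := hc2 x hx
    have h1 : (-(e i)) x = - x i := rfl
    have h2 : (-(e i)) a + (-(e i)) b = - a i + - b i := rfl
    have h3 : - a i ≤ - a0 i := ha2 a0 ha0
    have h4 : - b i ≤ - b0 i := hb2 b0 hb0
    rw [h1, h2, hS] at hx2
    have h5 : ind S i ≤ 1 := by
      rw [ind]
      split_ifs <;> norm_num
    omega
  choose m m' hm hm' hmm using hmin
  -- the exponent zero
  obtain ⟨a, ha, b, hb, hab⟩ : ∃ a ∈ supp G, ∃ b ∈ supp H, a + b = 0 := by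
    have h1 : (0 : ι → ℤ) ∈ (G * H).coeff.support := by
      rw [← hGH]
      exact Finsupp.mem_support_iff.mpr hL0
    obtain ⟨a, ha, b, hb, hab⟩ := Finset.mem_add.mp (AddMonoidAlgebra.support_coeff_mul_subset _ _ h1)
    exact ⟨a, Finsupp.mem_support_iff.mp ha, b, Finsupp.mem_support_iff.mp hb, hab⟩
  have ham : a = m := by
    funext i
    have h1 := congrFun hab i
    rw [Pi.add_apply, Pi.zero_apply] at h1
    have h2 := hm i a ha
    have h3 := hm' i b hb
    have h4 := hmm i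
    omega
  have hm'm : ∀ i, m' i = - m i := by
    intro i
    have h1 := congrFun hab i
    rw [Pi.add_apply, Pi.zero_apply] at h1
    have h2 := hm i a ha
    have h3 := hm' i b hb
    have h4 := hmm i
    omega
  have hbm : b = -m := by
    rw [← ham]
    exact (neg_eq_of_add_eq_zero_right hab).symm
  have hGm : G.coeff m ≠ 0 := by rw [← ham]; exact ha
  have hHm : H.coeff (-m) ≠ 0 := by rw [← hbm]; exact hb
  have bG : ∀ a ∈ supp G, ∀ i, m i ≤ a i := fun a ha i => hm i a ha
  have bH : ∀ b ∈ supp H, ∀ i, - m i ≤ b i := fun b hb i => by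
    rw [← hm'm i]
    exact hm' i b hb
  have u2 : UniqueAdd G.coeff.support H.coeff.support m (-m) := by
    intro a' b' ha' hb' hab
    have ha2 : a' ∈ supp G := Finsupp.mem_support_iff.mp ha'
    have hb2 : b' ∈ supp H := Finsupp.mem_support_iff.mp hb'
    have hh : ∀ i, a' i = m i ∧ b' i = (-m) i := by
      intro i
      have h1 := congrFun hab i
      simp only [Pi.add_apply, Pi.neg_apply] at h1
      have h2 := bG a' ha2 i
      have h3 := bH b' hb2 i
      rw [Pi.neg_apply]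
      constructor <;> omega
    exact ⟨funext fun i => (hh i).1, funext fun i => (hh i).2⟩
  have e2 := AddMonoidAlgebra.coeff_mul_add_of_uniqueAdd u2
  rw [← hGH, add_neg_cancel, ← hi0, hc1 ∅] at e2
  obtain ⟨p, g, hg0, hg⟩ := normal _ hGm
  obtain ⟨q, h, hh0, hh⟩ := normal _ hHm
  have e3 : Polynomial.toLaurent (D ∅) = LaurentPolynomial.T (p + q) * Polynomial.toLaurent (g * h) := by
    rw [e2, hg, hh, map_mul, LaurentPolynomial.T_add]
    ring
  have hgh0 : (g * h).coeff 0 ≠ 0 := by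
    rw [mul_coeff_zero]
    exact mul_ne_zero hg0 hh0
  have hpq : p + q = 0 := by
    rcases lt_trichotomy (p + q) 0 with hlt | heq | hgt
    · exfalso
      have h1 := congrArg (fun F : R => F.coeff (p + q)) e3
      simp only [coeff_T_mul] at h1
      rw [sub_self, Unr.coeff_toLaurent_neg _ _ hlt] at h1
      have h2 := Unr.coeff_toLaurent_nat (g * h) 0
      rw [Nat.cast_zero] at h2
      rw [h2] at h1
      exact hgh0 h1.symm
    · exact heq
    · exfalso
      have h1 := congrArg (fun F : R => F.coeff 0) e3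
      simp only [coeff_T_mul] at h1
      rw [Unr.coeff_toLaurent_neg (g * h) _ (by omega)] at h1
      have h2 := Unr.coeff_toLaurent_nat (D ∅) 0
      rw [Nat.cast_zero, h1, hone.2.1] at h2
      exact zero_ne_one h2
  have hQ : D ∅ = g * h := by
    apply Polynomial.toLaurent_injective
    rw [e3, hpq, LaurentPolynomial.T_zero, one_mul]
  have hsing : ∀ (n ε : ℤ), LaurentPolynomial.T n * Polynomial.toLaurent (C ε)
      = (AddMonoidAlgebra.single n ε : R) := by
    intro n ε
    rw [Polynomial.toLaurent_C]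
    have h1 := LaurentPolynomial.single_eq_C_mul_T ε n
    rw [mul_comm]
    exact h1.symm
  rcases side_or hone hQ with h1 | h1
  · obtain ⟨ε, hε, hh1⟩ := side hone hQ h1
    exact core htco hcoe D θ hfree hone G H m hGH.symm bG bH hmax hHu q ε hε
      (by rw [hh, hh1, hsing]) hGm
  · rw [mul_comm g h] at hQ
    obtain ⟨ε, hε, hh1⟩ := side hone hQ h1
    refine core htco hcoe D θ hfree hone H G (-m) (by rw [mul_comm]; exact hGH.symm) bH ?_ ?_ hGu p ε hε
      ?_ hHm
    · intro a ha i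
      rw [Pi.neg_apply, neg_neg]
      exact bG a ha i
    · intro a ha b hb i
      rw [add_comm]
      exact hmax b hb a ha i
    · rw [neg_neg, hg, hh1, hsing]

end Pool.Agent.MP_b5021c_nt.Lfa
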